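import Pool.Agent.N979.MH.Stm

open MeasureTheory Set Filter Topology
open scoped InnerProductSpace ENNReal ContDiff NNReal Convolution

namespace N979MH.DPL

open H772R2.NS

variable {Ω : Set E3} {k g : E3 → ℝ}

/-- mollification of `g 1_Ω` with the kernel `k`. -/
noncomputable def cv (Ω : Set E3) (k g : E3 → ℝ) (y : E3) : ℝ := ∫ x in Ω, g x * k (y - x)

theorem cv_eq (hΩ : MeasurableSet Ω) (k g : E3 → ℝ) :
    cv Ω k g = (Ω.indicator g) ⋆[ContinuousLinearMap.mul ℝ ℝ, volume] k := by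
  funext y
  rw [cv, ← integral_indicator hΩ, convolution_def]
  refine integral_congr_ae (Eventually.of_forall (fun x => ?_))
  by_cases hx : x ∈ Ω
  · simp [hx]
  · simp [hx]

theorem cv_contDiff (hΩ : MeasurableSet Ω) (hk : ContDiff ℝ ∞ k) (hkc : HasCompactSupport k)
    (hg : Integrable g (volume.restrict Ω)) : ContDiff ℝ ∞ (cv Ω k g) := by
  rw [cv_eq hΩ]
  exact hkc.contDiff_convolution_right _
    ((integrable_indicator_iff hΩ).mpr hg).locallyIntegrable hk

theorem cv_fderiv (hΩ : MeasurableSet Ω) (hk : ContDiff ℝ ∞ k) (hkc : HasCompactSupport k)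
    (hg : Integrable g (volume.restrict Ω)) (y v : E3) :
    fderiv ℝ (cv Ω k g) y v = ∫ x in Ω, g x * fderiv ℝ k (y - x) v := by
  have hl := ((integrable_indicator_iff hΩ).mpr hg).locallyIntegrable
  rw [cv_eq hΩ, (hkc.hasFDerivAt_convolution_right _ hl (hk.of_le (by simp)) y).fderiv,
    convolution_precompR_apply _ hl (hkc.fderiv ℝ) (hk.continuous_fderiv (by simp)),
    ← cv_eq hΩ]
  rfl

theorem cv_compact (hb : Bornology.IsBounded Ω) (hΩ : MeasurableSet Ω)
    (hkc : HasCompactSupport k) : HasCompactSupport (cv Ω k g) := by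
  obtain ⟨R, hR⟩ := hb.subset_closedBall 0
  obtain ⟨R', hR'⟩ := hkc.isCompact.isBounded.subset_closedBall 0
  refine HasCompactSupport.intro (isCompact_closedBall (0 : E3) (R + R')) (fun y hy => ?_)
  rw [cv]
  refine integral_eq_zero_of_ae ?_
  filter_upwards [ae_restrict_mem hΩ] with x hx
  have h1 := hR hx
  have h2 : k (y - x) = 0 := by
    by_contra h
    have h3 := hR' (subset_tsupport _ h)
    apply hy
    rw [mem_closedBall_zero_iff] at *
    calc ‖y‖ = ‖x + (y - x)‖ := by congr 1; abel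
      _ ≤ _ := (norm_add_le _ _).trans (add_le_add h1 h3)
  simp [h2]

theorem fderiv_bdd (hk : ContDiff ℝ ∞ k) (hkc : HasCompactSupport k) :
    ∃ B, 0 ≤ B ∧ ∀ h, ‖fderiv ℝ k h‖ ≤ B := by
  obtain ⟨B, hB⟩ := (hk.continuous_fderiv (by simp)).bounded_above_of_compact_support
    (hkc.fderiv ℝ)
  exact ⟨B, (norm_nonneg _).trans (hB 0), hB⟩

theorem cv_fderiv_le (hΩ : MeasurableSet Ω) (hk : ContDiff ℝ ∞ k) (hkc : HasCompactSupport k)
    (hg : Integrable g (volume.restrict Ω)) {B : ℝ} (hB0 : 0 ≤ B) (hB : ∀ h, ‖fderiv ℝ k h‖ ≤ B)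
    (y : E3) : ‖fderiv ℝ (cv Ω k g) y‖ ≤ B * ∫ x in Ω, ‖g x‖ := by
  refine ContinuousLinearMap.opNorm_le_bound _ (by positivity) (fun v => ?_)
  rw [cv_fderiv hΩ hk hkc hg, mul_assoc, ← integral_mul_const, ← integral_const_mul]
  refine norm_integral_le_of_norm_le ?_ (Eventually.of_forall (fun x => ?_))
  · exact (hg.norm.mul_const _).const_mul _
  · rw [norm_mul]
    calc ‖g x‖ * ‖fderiv ℝ k (y - x) v‖ ≤ ‖g x‖ * (B * ‖v‖) := by
          gcongr
          exact (ContinuousLinearMap.le_opNorm _ _).trans (by gcongr; exact hB _)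
      _ = _ := by ring

/-- integrability and the `L¹` bound. -/
theorem l1_le (hb : Bornology.IsBounded Ω) : ∃ m : ℝ, 0 ≤ m ∧ ∀ g : L2S Ω,
    Integrable g (volume.restrict Ω) ∧ ∫ x in Ω, ‖g x‖ ≤ m * ‖g‖ := by
  have hfin : volume Ω < ⊤ := hb.measure_lt_top
  have : IsFiniteMeasure (volume.restrict Ω) := ⟨by simpa using hfin⟩
  refine ⟨((volume.restrict Ω) univ ^ (1 / (1 : ℝ≥0∞).toReal - 1 / (2 : ℝ≥0∞).toReal)).toReal,
    ENNReal.toReal_nonneg, fun g => ?_⟩
  have hg : MemLp g 2 (volume.restrict Ω) := Lp.memLp g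
  have hi : Integrable g (volume.restrict Ω) := hg.integrable (by norm_num)
  refine ⟨hi, ?_⟩
  have h1 := eLpNorm_le_eLpNorm_mul_rpow_measure_univ (μ := volume.restrict Ω) (f := g)
    (p := 1) (q := 2) (by norm_num) (Lp.aestronglyMeasurable g)
  have h2 := ENNReal.toReal_mono (ENNReal.mul_lt_top hg.2 (by
    refine ENNReal.rpow_lt_top_of_nonneg (by norm_num) (measure_ne_top _ _))).ne h1
  rw [ENNReal.toReal_mul, eLpNorm_one_eq_lintegral_enorm, ← integral_norm_eq_lintegral_enorm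
    (Lp.aestronglyMeasurable g), ← Lp.norm_def] at h2
  linarith

theorem opEx (Ω : Set E3) {κ : E3 → (E3 →L[ℝ] ℝ)} (hκ : Continuous κ) {D : ℝ} (hD0 : 0 ≤ D)
    (hD : ∀ y, ‖κ y‖ ≤ D) : ∃ A : L2V Ω →L[ℝ] L2S Ω,
      (∀ v, (A v : E3 → ℝ) =ᵐ[volume.restrict Ω] fun y => κ y (v y)) ∧ ‖A‖ ≤ D := by
  have hle : ∀ (v : L2V Ω) y, ‖κ y (v y)‖ ≤ D * ‖v y‖ := fun v y =>
    (ContinuousLinearMap.le_opNorm _ _).trans (by gcongr; exact hD y)
  have hm : ∀ v : L2V Ω, MemLp (fun y => κ y (v y)) 2 (volume.restrict Ω) := by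
    intro v
    refine (Lp.memLp v).of_le_mul ?_ (Eventually.of_forall (hle v))
    exact (isBoundedBilinearMap_apply (𝕜 := ℝ) (E := E3) (F := ℝ)).continuous.comp_aestronglyMeasurable
      (hκ.aestronglyMeasurable.prodMk (Lp.aestronglyMeasurable v))
  let A0 : L2V Ω →ₗ[ℝ] L2S Ω :=
    { toFun := fun v => (hm v).toLp _
      map_add' := by
        intro v w
        apply Lp.ext
        filter_upwards [(hm (v + w)).coeFn_toLp, (hm v).coeFn_toLp, (hm w).coeFn_toLp,
          Lp.coeFn_add ((hm v).toLp _) ((hm w).toLp _), Lp.coeFn_add v w] with y h1 h2 h3 h4 h5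
        rw [h1, h4, Pi.add_apply, h2, h3, h5, Pi.add_apply, map_add]
      map_smul' := by
        intro c v
        apply Lp.ext
        filter_upwards [(hm (c • v)).coeFn_toLp, (hm v).coeFn_toLp,
          Lp.coeFn_smul c ((hm v).toLp _), Lp.coeFn_smul c v] with y h1 h2 h4 h5
        rw [h1, RingHom.id_apply, h4, Pi.smul_apply, h2, h5, Pi.smul_apply, map_smul] }
  refine ⟨A0.mkContinuous D (fun v => ?_), fun v => (hm v).coeFn_toLp,
    LinearMap.mkContinuous_norm_le _ hD0 _⟩
  refine Lp.norm_le_mul_norm_of_ae_le_mul ?_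
  filter_upwards [(hm v).coeFn_toLp] with y h1
  show ‖((hm v).toLp _ : L2S Ω) y‖ ≤ _
  rw [h1]
  exact hle v y

/-- the pairing `∫∫ a g k`. -/
noncomputable def SS (Ω : Set E3) (k a g : E3 → ℝ) : ℝ := ∫ y in Ω, a y * cv Ω k g y

/-- the flux. -/
noncomputable def Fl (Ω : Set E3) (k : E3 → ℝ) (a : E3 → ℝ) (v : E3 → E3) (g : E3 → ℝ) : ℝ :=
  ∫ y in Ω, a y * fderiv ℝ (cv Ω k g) y (v y)

theorem prod_int (hk : Continuous k) (hkc : HasCompactSupport k) {a g : E3 → ℝ}
    (ha : Integrable a (volume.restrict Ω)) (hg : Integrable g (volume.restrict Ω)) :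
    Integrable (fun p : E3 × E3 => a p.1 * (g p.2 * k (p.1 - p.2)))
      ((volume.restrict Ω).prod (volume.restrict Ω)) := by
  obtain ⟨B, hB⟩ := hk.bounded_above_of_compact_support hkc
  have h1 := (ha.mul_prod hg).mul_bdd (c := B) (g := fun p : E3 × E3 => k (p.1 - p.2))
    (hk.comp (continuous_fst.sub continuous_snd)).aestronglyMeasurable
    (Eventually.of_forall (fun p => hB _))
  refine h1.congr (Eventually.of_forall (fun p => ?_))
  simp only
  ring

theorem SS_eq (a g : E3 → ℝ) : SS Ω k a g = ∫ y in Ω, ∫ x in Ω, a y * (g x * k (y - x)) := by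
  simp only [SS, cv, integral_const_mul]

theorem SS_symm (hk : Continuous k) (hkc : HasCompactSupport k) (hke : ∀ x, k (-x) = k x)
    {a g : E3 → ℝ}
    (ha : Integrable a (volume.restrict Ω)) (hg : Integrable g (volume.restrict Ω)) :
    SS Ω k a g = SS Ω k g a := by
  rw [SS_eq, SS_eq, integral_integral_swap (prod_int hk hkc ha hg)]
  refine integral_congr_ae (Eventually.of_forall (fun x => integral_congr_ae
    (Eventually.of_forall (fun y => ?_))))
  simp only
  rw [← hke (y - x), neg_sub]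
  ring

theorem cv_congr {g g' : E3 → ℝ} (h : g =ᵐ[volume.restrict Ω] g') : cv Ω k g = cv Ω k g' := by
  funext y
  refine integral_congr_ae ?_
  filter_upwards [h] with x hx
  rw [hx]

theorem cv_add (hk : Continuous k) (hkc : HasCompactSupport k) {g g' : E3 → ℝ}
    (hg : Integrable g (volume.restrict Ω)) (hg' : Integrable g' (volume.restrict Ω)) :
    cv Ω k (fun x => g x + g' x) = fun y => cv Ω k g y + cv Ω k g' y := by
  obtain ⟨B, hB⟩ := hk.bounded_above_of_compact_support hkc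
  funext y
  have hi : ∀ f : E3 → ℝ, Integrable f (volume.restrict Ω) →
      Integrable (fun x => f x * k (y - x)) (volume.restrict Ω) := fun f hf =>
    hf.mul_bdd (c := B) (hk.comp (continuous_const.sub continuous_id)).aestronglyMeasurable
      (Eventually.of_forall (fun p => hB _))
  rw [cv, cv, cv, ← integral_add (hi g hg) (hi g' hg')]
  refine integral_congr_ae (Eventually.of_forall (fun x => ?_))
  simp only
  ring

theorem cv_smul (c : ℝ) (g : E3 → ℝ) :
    cv Ω k (fun x => c * g x) = fun y => c * cv Ω k g y := by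
  funext y
  rw [cv, cv, ← integral_const_mul]
  refine integral_congr_ae (Eventually.of_forall (fun x => ?_))
  simp only
  ring

end N979MH.DPL
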