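import Pool.Agent.N64.DPL.Space

open MeasureTheory Set Filter Topology
open scoped InnerProductSpace ENNReal ContDiff NNReal Convolution

namespace N979MH.DPL

open H772R2.NS

variable {Ω : Set E3} {k : E3 → ℝ}

theorem G_le {b : E3 → ℝ} (hbm : StronglyMeasurable b) {w : E3 → ℝ≥0∞} (hw : Measurable w)
    {om : ℝ≥0∞} (hom : ∀ h, w h ≠ 0 → eLpNorm (fun x => b (x + h) - b x) 2 (volume : Measure E3) ≤ om) :
    ∫⁻ x : E3, ∫⁻ y : E3, ‖b x‖ₑ * ‖b y - b x‖ₑ * w (y - x)
      ≤ (∫⁻ h, w h) * (eLpNorm b 2 (volume : Measure E3) * om) := by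
  have hbd : Measurable (fun p : E3 × E3 => ‖b p.2 - b p.1‖ₑ) :=
    ((hbm.comp_measurable measurable_snd).sub (hbm.comp_measurable measurable_fst)).enorm
  have hFm : Measurable (Function.uncurry (fun x y : E3 => ‖b x‖ₑ * ‖b y - b x‖ₑ * w (y - x))) :=
    ((hbm.enorm.comp measurable_fst).mul hbd).mul (hw.comp (measurable_snd.sub measurable_fst))
  rw [lint_shift hFm, ← lintegral_mul_const _ hw]
  refine lintegral_mono (fun h => ?_)
  have hd : StronglyMeasurable (fun x : E3 => b (x + h) - b x) :=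
    (hbm.comp_measurable (measurable_id.add_const h)).sub hbm
  have e1 : ∀ x : E3, ‖b x‖ₑ * ‖b (x + h) - b x‖ₑ * w (x + h - x)
      = (‖b x‖ₑ * ‖b (x + h) - b x‖ₑ) * w h := by
    intro x
    rw [add_sub_cancel_left]
  have h6 : Measurable (fun x : E3 => ‖b x‖ₑ * ‖b (x + h) - b x‖ₑ) := hbm.enorm.mul hd.enorm
  simp_rw [e1]
  rw [lintegral_mul_const _ h6, mul_comm]
  by_cases hh : w h = 0
  · simp [hh]
  · gcongr
    refine (cs_lint hbm.aestronglyMeasurable hd.aestronglyMeasurable).trans ?_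
    gcongr
    exact hom h hh

/-- the limit estimate for test fields -/
theorem J_lim (hk : ContDiff ℝ ∞ k) (hkc : HasCompactSupport k) {b : E3 → ℝ}
    (hbm : StronglyMeasurable b) (hbi : Integrable b)
    {φ : E3 → E3} (hφ : ContDiff ℝ ∞ φ) (hφc : HasCompactSupport φ)
    (hdiv : ∀ x, ∑ i, jac φ x (i, i) = 0) {L : ℝ≥0} (hL : LipschitzWith L φ) {om : ℝ≥0∞}
    (hom : ∀ h, fderiv ℝ k h ≠ 0 →
      eLpNorm (fun x => b (x + h) - b x) 2 (volume : Measure E3) ≤ om) :
    ‖∫ y, ∫ x, b y * (b x * fderiv ℝ k (y - x) (φ y - φ x))‖ₑ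
      ≤ L * ck k * (eLpNorm b 2 (volume : Measure E3) * om) := by
  obtain ⟨B, hB0, hB⟩ := fderiv_bdd hk hkc
  obtain ⟨C, hC⟩ := hφ.continuous.bounded_above_of_compact_support hφc
  have hKc : Continuous (fderiv ℝ k) := hk.continuous_fderiv (by simp)
  have hKm : Measurable (fun h : E3 => ‖fderiv ℝ k h‖ₑ) := hKc.enorm.measurable
  have hWc : Continuous (fun p : E3 × E3 => fderiv ℝ k (p.1 - p.2) (φ p.1 - φ p.2)) :=
    (hKc.comp (by fun_prop)).clm_apply ((hφ.continuous.comp continuous_fst).sub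
      (hφ.continuous.comp continuous_snd))
  have hW : ∀ p : E3 × E3, ‖fderiv ℝ k (p.1 - p.2) (φ p.1 - φ p.2)‖ ≤ B * (C + C) := fun p =>
    (ContinuousLinearMap.le_opNorm _ _).trans (by
      gcongr
      · exact hB _
      · exact (norm_sub_le _ _).trans (add_le_add (hC _) (hC _)))
  have hI := prod_int2 hbi hWc hW
  rw [integral_integral_swap (f := fun y x => b y * (b x * fderiv ℝ k (y - x) (φ y - φ x))) hI]
  have e1 : ∀ x, ∫ y, b y * (b x * fderiv ℝ k (y - x) (φ y - φ x))
      = ∫ y, b x * ((b y - b x) * fderiv ℝ k (y - x) (φ y - φ x)) := by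
    intro x
    have hc : Continuous (fun y => fderiv ℝ k (y - x) (φ y - φ x)) :=
      hWc.comp (continuous_id.prodMk continuous_const)
    have h1 : Integrable (fun y => b y * fderiv ℝ k (y - x) (φ y - φ x)) :=
      hbi.mul_bdd (c := B * (C + C)) hc.aestronglyMeasurable
        (Eventually.of_forall (fun y => hW (y, x)))
    have h2 : Integrable (fun y => fderiv ℝ k (y - x) (φ y - φ x)) := by
      refine hc.integrable_of_hasCompactSupport ?_
      have h3 : HasCompactSupport (fun y => fderiv ℝ k (y - x)) :=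
        (hkc.fderiv ℝ).comp_homeomorph (Homeomorph.subRight x)
      refine h3.mono (fun y hy hz => hy ?_)
      simp only at hz
      simp only [hz]
      rfl
    have h3 : (∫ y, b x * ((b y - b x) * fderiv ℝ k (y - x) (φ y - φ x)))
        = b x * (∫ y, b y * fderiv ℝ k (y - x) (φ y - φ x))
          - b x * (b x * ∫ y, fderiv ℝ k (y - x) (φ y - φ x)) := by
      rw [← integral_const_mul, ← integral_const_mul, ← integral_const_mul, ← integral_sub
        (h1.const_mul _) ((h2.const_mul _).const_mul _)]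
      refine integral_congr_ae (Eventually.of_forall (fun y => ?_))
      simp only
      ring
    rw [h3, zero_mean hk hkc hφ hdiv x, mul_zero, mul_zero, sub_zero, ← integral_const_mul]
    refine integral_congr_ae (Eventually.of_forall (fun y => ?_))
    simp only
    ring
  simp_rw [e1]
  have h1 : ‖∫ x, ∫ y, b x * ((b y - b x) * fderiv ℝ k (y - x) (φ y - φ x))‖ₑ
      ≤ ∫⁻ x : E3, ∫⁻ y : E3, ‖b x‖ₑ * ‖b y - b x‖ₑ *
        (L * (‖fderiv ℝ k (y - x)‖ₑ * ‖y - x‖ₑ)) := by
    refine (enorm_integral_le_lintegral_enorm _).trans (lintegral_mono (fun x => ?_))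
    refine (enorm_integral_le_lintegral_enorm _).trans (lintegral_mono (fun y => ?_))
    rw [enorm_mul, enorm_mul]
    have h2 : ‖fderiv ℝ k (y - x) (φ y - φ x)‖ₑ ≤ ‖fderiv ℝ k (y - x)‖ₑ * ‖φ y - φ x‖ₑ :=
      ContinuousLinearMap.le_opENorm _ _
    have h3 : ‖φ y - φ x‖ₑ ≤ L * ‖y - x‖ₑ := by
      have := hL y x
      rwa [edist_eq_enorm_sub, edist_eq_enorm_sub] at this
    calc ‖b x‖ₑ * (‖b y - b x‖ₑ * ‖fderiv ℝ k (y - x) (φ y - φ x)‖ₑ)
        ≤ ‖b x‖ₑ * (‖b y - b x‖ₑ * (‖fderiv ℝ k (y - x)‖ₑ * (L * ‖y - x‖ₑ))) := by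
          gcongr
          exact h2.trans (by gcongr)
      _ = _ := by ring
  refine h1.trans ?_
  have hwm : Measurable (fun h : E3 => ‖fderiv ℝ k h‖ₑ * ‖h‖ₑ) := hKm.mul measurable_enorm
  refine (G_le hbm (w := fun h => L * (‖fderiv ℝ k h‖ₑ * ‖h‖ₑ)) (hwm.const_mul _)
    (fun h hh => hom h ?_)).trans (le_of_eq ?_)
  · intro h0
    apply hh
    have h7 : ‖fderiv ℝ k h‖ₑ = 0 := by
      rw [← ofReal_norm, h0, norm_zero, ENNReal.ofReal_zero]
    rw [h7, zero_mul, mul_zero]
  · rw [lintegral_const_mul _ hwm]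
    rfl

/-- the diagonal estimate -/
theorem SS_lim (hΩ : MeasurableSet Ω) (hk : ContDiff ℝ ∞ k) (hkc : HasCompactSupport k)
    (hk0 : ∀ x, 0 ≤ k x) (hk1 : ∫ x, k x = 1) (a : L2S Ω) {b : E3 → ℝ}
    (hbm : StronglyMeasurable b) (hbi : Integrable b) (hb0 : ∀ x, x ∉ Ω → b x = 0)
    (hba : b =ᵐ[volume.restrict Ω] a) (hb2 : MemLp b 2 (volume : Measure E3))
    {om : ℝ≥0∞}
    (hom : ∀ h, k h ≠ 0 →
      eLpNorm (fun x => b (x + h) - b x) 2 (volume : Measure E3) ≤ om) :
    ‖SS Ω k a a - ‖a‖ ^ 2‖ₑ ≤ eLpNorm b 2 (volume : Measure E3) * om := by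
  obtain ⟨B, hB⟩ := hk.continuous.bounded_above_of_compact_support hkc
  have e1 : SS Ω k a a = ∫ y, ∫ x, b y * (b x * k (y - x)) := by
    have e2 : (∫ y, ∫ x, b y * (b x * k (y - x)))
        = ∫ y in Ω, ∫ x, b y * (b x * k (y - x)) := by
      rw [setIntegral_eq_integral_of_forall_compl_eq_zero]
      intro y hy
      simp [hb0 y hy]
    rw [e2, SS]
    refine integral_congr_ae ?_
    filter_upwards [hba] with y hy
    rw [integral_const_mul, hy, cv]
    congr 1
    have e3 : (∫ x, b x * k (y - x)) = ∫ x in Ω, b x * k (y - x) := by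
      rw [setIntegral_eq_integral_of_forall_compl_eq_zero]
      intro x hx
      simp [hb0 x hx]
    rw [e3]
    refine integral_congr_ae ?_
    filter_upwards [hba] with x hx
    rw [hx]
  have e2 : ‖a‖ ^ 2 = ∫ y, b y * (b y * ∫ x, k (y - x)) := by
    have h1 : ∀ y : E3, ∫ x, k (y - x) = 1 := fun y => by
      rw [integral_sub_left_eq_self (μ := (volume : Measure E3)) k, hk1]
    simp_rw [h1, mul_one]
    have h2 : (∫ y, b y * b y) = ∫ y in Ω, b y * b y :=
      (setIntegral_eq_integral_of_forall_compl_eq_zero (s := Ω)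
        (fun y hy => by simp [hb0 y hy])).symm
    rw [← real_inner_self_eq_norm_sq, L2.inner_def, h2]
    refine integral_congr_ae ?_
    filter_upwards [hba] with x hx
    simp [hx, sq]
  have hbk : ∀ y, Integrable (fun x => b x * k (y - x)) := fun y =>
    hbi.mul_bdd (c := B) (hk.continuous.comp (continuous_const.sub continuous_id)).aestronglyMeasurable
      (Eventually.of_forall (fun x => hB _))
  have hkk : ∀ y, Integrable (fun x => k (y - x)) := fun y => by
    have hki : Integrable k := hk.continuous.integrable_of_hasCompactSupport hkc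
    exact hki.comp_sub_left y
  have hI := prod_int2 hbi (W := fun p : E3 × E3 => k (p.1 - p.2))
    (hk.continuous.comp (by fun_prop)) (B := B) (fun p => hB _)
  have hI1 : Integrable (fun y => ∫ x, b y * (b x * k (y - x))) := hI.integral_prod_left
  have hI2 : Integrable (fun y => b y * (b y * ∫ x, k (y - x))) := by
    have h1 : ∀ y : E3, ∫ x, k (y - x) = 1 := fun y => by
      rw [integral_sub_left_eq_self (μ := (volume : Measure E3)) k, hk1]
    simp_rw [h1, mul_one]
    exact hb2.integrable_mul hb2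
  have e3 : SS Ω k a a - ‖a‖ ^ 2 = ∫ y, ∫ x, b y * ((b x - b y) * k (y - x)) := by
    rw [e1, e2, ← integral_sub hI1 hI2]
    refine integral_congr_ae (Eventually.of_forall (fun y => ?_))
    simp only
    rw [integral_const_mul, integral_const_mul, ← mul_sub, ← integral_const_mul (b y),
      ← integral_sub (hbk y) ((hkk y).const_mul _)]
    congr 1
    refine integral_congr_ae (Eventually.of_forall (fun x => ?_))
    simp only
    ring
  have hkm : Measurable (fun h : E3 => ‖k (-h)‖ₑ) :=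
    (hk.continuous.comp continuous_neg).enorm.measurable
  rw [e3]
  have h1 : ‖∫ y, ∫ x, b y * ((b x - b y) * k (y - x))‖ₑ
      ≤ ∫⁻ y : E3, ∫⁻ x : E3, ‖b y‖ₑ * ‖b x - b y‖ₑ * ‖k (-(x - y))‖ₑ := by
    refine (enorm_integral_le_lintegral_enorm _).trans (lintegral_mono (fun x => ?_))
    refine (enorm_integral_le_lintegral_enorm _).trans (lintegral_mono (fun y => ?_))
    rw [enorm_mul, enorm_mul, neg_sub, mul_assoc]
  have h2 : ∫⁻ h : E3, ‖k (-h)‖ₑ = 1 := by
    rw [lintegral_neg_eq_self (μ := (volume : Measure E3)) (fun h : E3 => ‖k h‖ₑ)]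
    have hki : Integrable k (volume : Measure E3) :=
      hk.continuous.integrable_of_hasCompactSupport hkc
    have h3 := ofReal_integral_eq_lintegral_ofReal hki (Eventually.of_forall hk0)
    rw [hk1, ENNReal.ofReal_one] at h3
    rw [h3]
    exact lintegral_congr (fun x => Real.enorm_eq_ofReal (hk0 x))
  have homn : ∀ h, k (-h) ≠ 0 →
      eLpNorm (fun x => b (x + h) - b x) 2 (volume : Measure E3) ≤ om := by
    intro h hh
    have h3 := hom (-h) hh
    have hd : StronglyMeasurable (fun x : E3 => b (x + (-h)) - b x) :=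
      (hbm.comp_measurable (measurable_id.add_const (-h))).sub hbm
    have h4 := eLpNorm_comp_measurePreserving (p := 2) hd.aestronglyMeasurable
      (measurePreserving_add_right (volume : Measure E3) h)
    refine le_trans (le_of_eq ?_) h3
    rw [← h4, ← eLpNorm_neg]
    congr 1
    funext x
    simp
  refine h1.trans ((G_le hbm (w := fun h => ‖k (-h)‖ₑ) hkm (fun h hh => homn h ?_)).trans ?_)
  · intro h0
    apply hh
    simp [h0]
  · rw [h2, one_mul]

/-- continuity of translations. -/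
theorem transl_cont {b : E3 → ℝ} (hb : MemLp b 2 (volume : Measure E3)) (η : ℝ≥0∞) (hη : 0 < η) :
    ∃ δ : ℝ, 0 < δ ∧ ∀ h : E3, ‖h‖ < δ →
      eLpNorm (fun x => b (x + h) - b x) 2 (volume : Measure E3) ≤ η := by
  have : Fact ((1 : ENNReal) ≤ 2) := ⟨by norm_num⟩
  let G : E3 → C(E3, E3) := fun t => ⟨fun z => z + t, by fun_prop⟩
  have hG : Continuous G := ContinuousMap.continuous_of_continuous_uncurry _ (by
    show Continuous fun p : E3 × E3 => p.2 + p.1
    fun_prop)
  have hmp : ∀ t, MeasurePreserving (G t) volume volume := fun t =>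
    measurePreserving_add_right volume t
  have hc : Continuous fun t => Lp.compMeasurePreserving (G t) (hmp t) (hb.toLp b) :=
    Continuous.compMeasurePreservingLp continuous_const hG hmp (by norm_num)
  have h0 := hc.tendsto 0
  have h1 : Lp.compMeasurePreserving (G 0) (hmp 0) (hb.toLp b) = hb.toLp b := by
    rw [Lp.toLp_compMeasurePreserving]
    congr 1
    funext z
    simp [G]
  rw [h1] at h0
  have h2 := h0.eventually (Metric.closedEBall_mem_nhds _ hη)
  obtain ⟨δ, hδ, h3⟩ := Metric.eventually_nhds_iff.mp h2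
  refine ⟨δ, hδ, fun h hh => ?_⟩
  have h4 := h3 (y := h) (by simpa [dist_eq_norm] using hh)
  rw [Lp.toLp_compMeasurePreserving, Lp.edist_toLp_toLp] at h4
  exact h4

end N979MH.DPL
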