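import Mathlib

open MeasureTheory Set Filter Topology
open scoped InnerProductSpace ENNReal Interval

namespace N64DPL

variable {H : Type*} [NormedAddCommGroup H] [InnerProductSpace ℝ H] [CompleteSpace H]

theorem weak_apply {ι : Type*} {l : Filter ι} {x : ι → H} {y : H}
    (h : ∀ g, Tendsto (fun i => ⟪x i, g⟫_ℝ) l (𝓝 ⟪y, g⟫_ℝ)) (Φ : H →L[ℝ] ℝ) :
    Tendsto (fun i => Φ (x i)) l (𝓝 (Φ y)) := by
  have e : ∀ z, ⟪z, (InnerProductSpace.toDual ℝ H).symm Φ⟫_ℝ = Φ z := fun z => by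
    rw [real_inner_comm, InnerProductSpace.toDual_symm_apply]
  have h1 := h ((InnerProductSpace.toDual ℝ H).symm Φ)
  simpa only [e] using h1

/-- product rule through Riemann sums -/
theorem riemann {T M : ℝ} {r : ℝ → H}
    (hr : ∀ g, ContinuousOn (fun t => ⟪r t, g⟫_ℝ) (Icc 0 T))
    (hM : ∀ t ∈ Icc 0 T, ‖r t‖ ≤ M) {Φ : ℝ → (H →L[ℝ] ℝ)} {C : ℝ → ℝ}
    (hC : IntegrableOn C (Ioc 0 T)) (hΦ : ∀ᵐ t ∂(volume.restrict (Ioc 0 T)), ‖Φ t‖ ≤ C t)
    (hm : ∀ g, AEStronglyMeasurable (fun t => Φ t g) (volume.restrict (Ioc 0 T)))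
    {Q : ℝ → ℝ}
    (hQ : ∀ s t, 0 ≤ s → s ≤ t → t ≤ T → Q t - Q s = ∫ τ in s..t, Φ τ (r t + r s)) :
    ∀ t ∈ Icc 0 T, (Q t - Q 0 = ∫ τ in (0 : ℝ)..t, Φ τ (r τ + r τ)) ∧
      AEStronglyMeasurable (fun τ => Φ τ (r τ + r τ)) (volume.restrict (Ι 0 t)) := by
  intro t ht
  rcases eq_or_lt_of_le ht.1 with h0 | h0
  · subst h0; simp
  have hM0 : 0 ≤ M := (norm_nonneg _).trans (hM 0 ⟨le_rfl, ht.1.trans ht.2⟩)
  -- integrability on subintervals
  have hint : ∀ g : H, ∀ a b, 0 ≤ a → a ≤ b → b ≤ T → IntervalIntegrable (fun τ => Φ τ g) volume a b := by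
    intro g a b ha hab hb
    rw [intervalIntegrable_iff_integrableOn_Ioc_of_le hab]
    have hsub : Ioc a b ⊆ Ioc 0 T := Ioc_subset_Ioc ha hb
    have h1 : IntegrableOn (fun τ => Φ τ g) (Ioc 0 T) := by
      refine (hC.mul_const ‖g‖).mono' (hm g) ?_
      filter_upwards [hΦ] with τ h
      exact (ContinuousLinearMap.le_opNorm _ _).trans (by gcongr)
    exact h1.mono_set hsub
  -- the grid
  let p : ℕ → ℕ → ℝ := fun n i => (i : ℝ) * t / n
  let fl : ℕ → ℝ → ℕ := fun n τ => ⌊(n : ℝ) * τ / t⌋₊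
  let F : ℕ → ℝ → ℝ := fun n τ => Φ τ (r (p n (fl n τ + 1)) + r (p n (fl n τ)))
  have hp0 : ∀ n i, 0 ≤ p n i := fun n i => by positivity
  have hpt : ∀ n : ℕ, 0 < n → ∀ i, i ≤ n → p n i ≤ t := by
    intro n hn i hi
    have hn' : (0 : ℝ) < n := by exact_mod_cast hn
    show (i : ℝ) * t / n ≤ t
    rw [div_le_iff₀ hn']
    have : (i : ℝ) ≤ n := by exact_mod_cast hi
    nlinarith
  have hpm : ∀ n : ℕ, 0 < n → ∀ i, p n i ≤ p n (i + 1) := by
    intro n hn i
    show (i : ℝ) * t / n ≤ ((i + 1 : ℕ) : ℝ) * t / n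
    push_cast
    gcongr
    linarith
  have hfl : ∀ n : ℕ, 0 < n → ∀ i, ∀ τ ∈ Ico (p n i) (p n (i + 1)), fl n τ = i := by
    intro n hn i τ hτ
    have hn' : (0 : ℝ) < n := by exact_mod_cast hn
    have h1 : (i : ℝ) * t / n ≤ τ := hτ.1
    have h2 : τ < ((i + 1 : ℕ) : ℝ) * t / n := hτ.2
    rw [div_le_iff₀ hn'] at h1
    rw [lt_div_iff₀ hn'] at h2
    push_cast at h2
    show ⌊(n : ℝ) * τ / t⌋₊ = i
    rw [Nat.floor_eq_iff (by
      have : 0 ≤ τ := (hp0 n i).trans hτ.1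
      positivity)]
    constructor
    · rw [le_div_iff₀ h0]; linarith
    · rw [div_lt_iff₀ h0]; linarith
  have hF : ∀ n : ℕ, 0 < n → ∀ i, i < n →
      IntervalIntegrable (F n) volume (p n i) (p n (i + 1)) ∧
      ∫ τ in (p n i)..(p n (i + 1)), F n τ = Q (p n (i + 1)) - Q (p n i) := by
    intro n hn i hi
    have hae : ∀ᵐ τ ∂volume, τ ∈ Ι (p n i) (p n (i + 1)) →
        Φ τ (r (p n (i + 1)) + r (p n i)) = F n τ := by
      have : ∀ᵐ τ : ℝ ∂volume, τ ≠ p n (i + 1) := by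
        simp [ae_iff, measure_singleton]
      filter_upwards [this] with τ h1 h2
      rw [uIoc_of_le (hpm n hn i)] at h2
      have h3 : fl n τ = i := hfl n hn i τ ⟨h2.1.le, lt_of_le_of_ne h2.2 h1⟩
      show _ = Φ τ (r (p n (fl n τ + 1)) + r (p n (fl n τ)))
      rw [h3]
    constructor
    · exact (hint _ _ _ (hp0 n i) (hpm n hn i) ((hpt n hn (i + 1) hi).trans ht.2)).congr_ae
        ((ae_restrict_iff' measurableSet_uIoc).mpr hae)
    · rw [hQ _ _ (hp0 n i) (hpm n hn i) ((hpt n hn (i + 1) hi).trans ht.2)]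
      exact (intervalIntegral.integral_congr_ae hae).symm
  have hsum : ∀ n : ℕ, 0 < n → IntervalIntegrable (F n) volume 0 t ∧
      ∫ τ in (0 : ℝ)..t, F n τ = Q t - Q 0 := by
    intro n hn
    have hn' : (n : ℝ) ≠ 0 := by exact_mod_cast hn.ne'
    have e0 : p n 0 = 0 := by simp [p]
    have e1 : p n n = t := by simp only [p]; field_simp
    constructor
    · have := IntervalIntegrable.trans_iterate (f := F n) (μ := volume) (a := p n) (n := n)
        (fun k hk => (hF n hn k hk).1)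
      rwa [e0, e1] at this
    · have := intervalIntegral.sum_integral_adjacent_intervals (f := F n) (μ := volume) (a := p n)
        (n := n) (fun k hk => (hF n hn k hk).1)
      rw [e0, e1] at this
      rw [← this, Finset.sum_congr rfl (fun k hk => (hF n hn k (Finset.mem_range.mp hk)).2),
        Finset.sum_range_sub (fun k => Q (p n k)), e0, e1]
  have hptw : ∀ᵐ τ ∂volume, τ ∈ Ι 0 t →
      Tendsto (fun n => F n τ) atTop (𝓝 (Φ τ (r τ + r τ))) := by
    have h2 : ∀ᵐ τ : ℝ ∂volume, τ ≠ t := by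
      simp [ae_iff, measure_singleton]
    filter_upwards [h2] with τ h2 h3
    rw [uIoc_of_le ht.1] at h3
    have hτt : τ < t := lt_of_le_of_ne h3.2 h2
    have hτ0 : 0 < τ := h3.1
    have hfloor : Tendsto (fun n : ℕ => ((fl n τ : ℕ) : ℝ) / n) atTop (𝓝 (τ / t)) := by
      have h := (tendsto_nat_floor_mul_div_atTop (R := ℝ) (a := τ / t) (by positivity)).comp
        (tendsto_natCast_atTop_atTop (R := ℝ))
      refine h.congr (fun n => ?_)
      simp only [Function.comp, fl]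
      congr 3
      ring_nf
    have hp1 : Tendsto (fun n : ℕ => p n (fl n τ)) atTop (𝓝 τ) := by
      have h := hfloor.mul_const t
      have e : τ / t * t = τ := by field_simp
      rw [e] at h
      refine h.congr (fun n => ?_)
      simp only [p]; ring
    have hp2 : Tendsto (fun n : ℕ => p n (fl n τ + 1)) atTop (𝓝 τ) := by
      have h := hp1.add ((tendsto_const_div_atTop_nhds_zero_nat t))
      rw [add_zero] at h
      refine h.congr (fun n => ?_)
      simp only [p]; push_cast; ring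
    have hw : ∀ q : ℕ → ℝ, Tendsto q atTop (𝓝 τ) → (∀ᶠ n in atTop, q n ∈ Icc 0 T) →
        Tendsto (fun n => Φ τ (r (q n))) atTop (𝓝 (Φ τ (r τ))) := by
      intro q h4 h5
      refine weak_apply (fun g => ?_) (Φ τ)
      exact (hr g τ ⟨hτ0.le, h3.2.trans ht.2⟩).tendsto.comp
        (tendsto_nhdsWithin_iff.mpr ⟨h4, h5⟩)
    have hin1 : ∀ᶠ n in atTop, p n (fl n τ) ∈ Icc 0 T := by
      filter_upwards [hp1.eventually (gt_mem_nhds hτt)] with n hn
      exact ⟨hp0 _ _, hn.le.trans ht.2⟩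
    have hin2 : ∀ᶠ n in atTop, p n (fl n τ + 1) ∈ Icc 0 T := by
      filter_upwards [hp2.eventually (gt_mem_nhds hτt)] with n hn
      exact ⟨hp0 _ _, hn.le.trans ht.2⟩
    have := (hw _ hp2 hin2).add (hw _ hp1 hin1)
    simpa only [map_add, F] using this
  have hlim : Tendsto (fun n => ∫ τ in (0 : ℝ)..t, F n τ) atTop
      (𝓝 (∫ τ in (0 : ℝ)..t, Φ τ (r τ + r τ))) := by
    refine intervalIntegral.tendsto_integral_filter_of_dominated_convergence
      (fun τ => C τ * (M + M)) ?_ ?_ ?_ ?_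
    · filter_upwards [eventually_gt_atTop 0] with n hn
      exact (hsum n hn).1.def'.aestronglyMeasurable
    · filter_upwards [eventually_gt_atTop 0] with n hn
      have h1 : ∀ᵐ τ ∂volume, τ ∈ Ioc 0 T → ‖Φ τ‖ ≤ C τ :=
        (ae_restrict_iff' measurableSet_Ioc).mp hΦ
      have h2 : ∀ᵐ τ : ℝ ∂volume, τ ≠ t := by
        simp [ae_iff, measure_singleton]
      filter_upwards [h1, h2] with τ h1 h2 h3
      rw [uIoc_of_le ht.1] at h3
      have h4 := h1 ⟨h3.1, h3.2.trans ht.2⟩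
      have hn' : (0 : ℝ) < n := by exact_mod_cast hn
      have h5 : fl n τ < n := by
        show ⌊(n : ℝ) * τ / t⌋₊ < n
        rw [Nat.floor_lt (by have := h3.1; positivity), div_lt_iff₀ h0]
        have := lt_of_le_of_ne h3.2 h2
        gcongr
      have h6 : ‖r (p n (fl n τ + 1)) + r (p n (fl n τ))‖ ≤ M + M :=
        (norm_add_le _ _).trans (add_le_add
          (hM _ ⟨hp0 _ _, (hpt n hn _ h5).trans ht.2⟩)
          (hM _ ⟨hp0 _ _, (hpt n hn _ h5.le).trans ht.2⟩))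
      calc ‖F n τ‖ ≤ ‖Φ τ‖ * ‖r (p n (fl n τ + 1)) + r (p n (fl n τ))‖ :=
            ContinuousLinearMap.le_opNorm _ _
        _ ≤ C τ * (M + M) := mul_le_mul h4 h6 (norm_nonneg _) ((norm_nonneg _).trans h4)
    · rw [intervalIntegrable_iff_integrableOn_Ioc_of_le ht.1]
      have hC' : IntegrableOn (fun τ => C τ * (M + M)) (Ioc 0 T) := Integrable.mul_const hC _
      exact hC'.mono_set (Ioc_subset_Ioc_right ht.2)
    · exact hptw
  have hconst : Tendsto (fun n => ∫ τ in (0 : ℝ)..t, F n τ) atTop (𝓝 (Q t - Q 0)) := by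
    refine tendsto_const_nhds.congr' ?_
    filter_upwards [eventually_gt_atTop 0] with n hn
    exact (hsum n hn).2.symm
  refine ⟨tendsto_nhds_unique hconst hlim, ?_⟩
  refine aestronglyMeasurable_of_tendsto_ae atTop (f := fun n => F (n + 1)) (fun n => ?_) ?_
  · exact (hsum (n + 1) n.succ_pos).1.def'.aestronglyMeasurable
  · filter_upwards [(ae_restrict_iff' measurableSet_uIoc).mpr hptw] with τ h
    exact h.comp (tendsto_add_atTop_nat 1)

omit [CompleteSpace H] in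
/-- measurability of `⟪r t, w t⟫` for weakly continuous `r`. -/
theorem meas_weak {T : ℝ} {r : ℝ → H}
    (hr : ∀ g, ContinuousOn (fun t => ⟪r t, g⟫_ℝ) (Icc 0 T)) {w : ℝ → H}
    (hw : AEStronglyMeasurable w (volume.restrict (Ioc 0 T))) :
    AEStronglyMeasurable (fun t => ⟪r t, w t⟫_ℝ) (volume.restrict (Ioc 0 T)) := by
  let q : ℕ → ℝ → ℝ := fun n τ => ((⌊τ * n⌋₊ : ℕ) : ℝ) / n
  have h1 : ∀ n, AEStronglyMeasurable (fun t => ⟪r (q n t), w t⟫_ℝ)
      (volume.restrict (Ioc 0 T)) := by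
    intro n
    have hs : StronglyMeasurable (fun t => r (q n t)) := by
      have e : (fun t => r (q n t)) = (fun m : ℕ => r ((m : ℝ) / n)) ∘
        (fun t : ℝ => ⌊t * (n : ℝ)⌋₊) := rfl
      rw [e]
      have h1 : StronglyMeasurable (fun m : ℕ => r ((m : ℝ) / n)) := StronglyMeasurable.of_discrete
      exact h1.comp_measurable (Nat.measurable_floor.comp (measurable_id.mul_const _))
    exact hs.aestronglyMeasurable.inner hw
  refine aestronglyMeasurable_of_tendsto_ae atTop h1 ?_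
  filter_upwards [ae_restrict_mem measurableSet_Ioc] with t ht
  have h2 : Tendsto (fun n : ℕ => q n t) atTop (𝓝 t) :=
    (tendsto_nat_floor_mul_div_atTop (R := ℝ) (a := t) ht.1.le).comp
      (tendsto_natCast_atTop_atTop (R := ℝ))
  have h3 : ∀ᶠ n in atTop, q n t ∈ Icc 0 T := by
    filter_upwards [eventually_gt_atTop 0] with n hn
    have hn' : (0 : ℝ) < n := by exact_mod_cast hn
    refine ⟨by positivity, le_trans ?_ ht.2⟩
    show ((⌊t * n⌋₊ : ℕ) : ℝ) / n ≤ t
    rw [div_le_iff₀ hn']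
    exact Nat.floor_le (by have := ht.1; positivity)
  exact (hr (w t) t ⟨ht.1.le, ht.2⟩).tendsto.comp (tendsto_nhdsWithin_iff.mpr ⟨h2, h3⟩)

end N64DPL
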