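import Pool.Agent.N64.DPL.Tools

open MeasureTheory Set Filter Topology
open scoped InnerProductSpace ENNReal ContDiff NNReal Convolution

namespace N979MH.DPL

open H772R2.NS

variable {Ω : Set E3} {k : E3 → ℝ}

theorem fderiv_neg_of_even (hk : Differentiable ℝ k) (hke : ∀ x, k (-x) = k x) (h v : E3) :
    fderiv ℝ k (-h) v = - fderiv ℝ k h v := by
  have h1 : (fun x => k (-x)) = k := funext hke
  have h3 : fderiv ℝ (fun x => k (-x)) h = fderiv ℝ k h := by rw [h1]
  have h5 : HasFDerivAt (fun x : E3 => -x) (-ContinuousLinearMap.id ℝ E3) h :=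
    (hasFDerivAt_id h).neg
  have h6 : HasFDerivAt (fun x => k (-x)) _ h := HasFDerivAt.comp h ((hk (-h)).hasFDerivAt) h5
  rw [← h3, h6.fderiv]
  simp

theorem prod_int2 {b : E3 → ℝ} (hb : Integrable b) {W : E3 × E3 → ℝ} (hW : Continuous W) {B : ℝ}
    (hB : ∀ p, ‖W p‖ ≤ B) : Integrable (fun p : E3 × E3 => b p.1 * (b p.2 * W p))
      ((volume : Measure E3).prod volume) := by
  have h1 := (hb.mul_prod hb).mul_bdd (c := B) (g := W) hW.aestronglyMeasurable
    (Eventually.of_forall hB)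
  refine h1.congr (Eventually.of_forall (fun p => ?_))
  simp only
  ring

/-- the flux in terms of the difference. -/
theorem Fl_test (hΩ : MeasurableSet Ω) (hk : ContDiff ℝ ∞ k) (hkc : HasCompactSupport k)
    (hke : ∀ x, k (-x) = k x) {a b : E3 → ℝ} (ha : Integrable a (volume.restrict Ω))
    (hbi : Integrable b) (hb0 : ∀ x, x ∉ Ω → b x = 0) (hba : b =ᵐ[volume.restrict Ω] a)
    {φ : E3 → E3} (hφ : ContDiff ℝ ∞ φ) (hφc : HasCompactSupport φ) :
    2 * Fl Ω k a φ a = ∫ y, ∫ x, b y * (b x * fderiv ℝ k (y - x) (φ y - φ x)) := by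
  obtain ⟨B, hB0, hB⟩ := fderiv_bdd hk hkc
  obtain ⟨C, hC⟩ := hφ.continuous.bounded_above_of_compact_support hφc
  have hKc : Continuous (fderiv ℝ k) := hk.continuous_fderiv (by simp)
  have e1 : Fl Ω k a φ a = ∫ y, ∫ x, b y * (b x * fderiv ℝ k (y - x) (φ y)) := by
    have e2 : (∫ y, ∫ x, b y * (b x * fderiv ℝ k (y - x) (φ y)))
        = ∫ y in Ω, ∫ x, b y * (b x * fderiv ℝ k (y - x) (φ y)) := by
      rw [setIntegral_eq_integral_of_forall_compl_eq_zero]
      intro y hy
      simp [hb0 y hy]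
    rw [e2, Fl]
    refine integral_congr_ae ?_
    filter_upwards [hba] with y hy
    rw [cv_fderiv hΩ hk hkc ha, integral_const_mul, hy]
    congr 1
    have e3 : (∫ x, b x * fderiv ℝ k (y - x) (φ y))
        = ∫ x in Ω, b x * fderiv ℝ k (y - x) (φ y) := by
      rw [setIntegral_eq_integral_of_forall_compl_eq_zero]
      intro x hx
      simp [hb0 x hx]
    rw [e3]
    refine integral_congr_ae ?_
    filter_upwards [hba] with x hx
    rw [hx]
  have hbdd : ∀ h v : E3, ‖v‖ ≤ C → ‖fderiv ℝ k h v‖ ≤ B * C := fun h v hv =>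
    (ContinuousLinearMap.le_opNorm _ _).trans (by gcongr; exact hB h)
  have hI1 := prod_int2 hbi (W := fun p : E3 × E3 => fderiv ℝ k (p.1 - p.2) (φ p.1))
    ((hKc.comp (by fun_prop)).clm_apply (hφ.continuous.comp continuous_fst))
    (B := B * C) (fun p => hbdd _ _ (hC _))
  have hI2 := prod_int2 hbi (W := fun p : E3 × E3 => fderiv ℝ k (p.1 - p.2) (φ p.2))
    ((hKc.comp (by fun_prop)).clm_apply (hφ.continuous.comp continuous_snd))
    (B := B * C) (fun p => hbdd _ _ (hC _))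
  have e4 : (∫ y, ∫ x, b y * (b x * fderiv ℝ k (y - x) (φ y)))
      = - ∫ y, ∫ x, b y * (b x * fderiv ℝ k (y - x) (φ x)) := by
    have h1 := integral_integral_swap (f := fun y x => b y * (b x * fderiv ℝ k (y - x) (φ y))) hI1
    rw [h1, ← integral_neg]
    refine integral_congr_ae (Eventually.of_forall (fun x => ?_))
    simp only
    rw [← integral_neg]
    refine integral_congr_ae (Eventually.of_forall (fun y => ?_))
    simp only
    rw [← neg_sub x y, fderiv_neg_of_even (hk.differentiable (by simp)) hke]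
    ring
  have e5 : (∫ y, ∫ x, b y * (b x * fderiv ℝ k (y - x) (φ y - φ x)))
      = (∫ y, ∫ x, b y * (b x * fderiv ℝ k (y - x) (φ y)))
        - ∫ y, ∫ x, b y * (b x * fderiv ℝ k (y - x) (φ x)) := by
    rw [integral_integral (f := fun y x => b y * (b x * fderiv ℝ k (y - x) (φ y))) hI1,
      integral_integral (f := fun y x => b y * (b x * fderiv ℝ k (y - x) (φ x))) hI2,
      ← integral_sub hI1 hI2, integral_integral]
    · refine integral_congr_ae (Eventually.of_forall (fun p => ?_))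
      simp only [map_sub]
      ring
    · refine (hI1.sub hI2).congr (Eventually.of_forall (fun p => ?_))
      simp only [Pi.sub_apply, Function.uncurry, map_sub]
      ring
  rw [e5, e1]
  linarith

/-- integration by parts: the mean of `∇k · (φ - φ x)` vanishes. -/
theorem zero_mean (hk : ContDiff ℝ ∞ k) (hkc : HasCompactSupport k) {φ : E3 → E3}
    (hφ : ContDiff ℝ ∞ φ) (hdiv : ∀ x, ∑ i, jac φ x (i, i) = 0) (x : E3) :
    ∫ y, fderiv ℝ k (y - x) (φ y - φ x) = 0 := by
  let κ : E3 → ℝ := fun y => k (y - x)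
  have hκ : ContDiff ℝ ∞ κ := hk.comp (contDiff_id.sub contDiff_const)
  have hκd : ∀ y, fderiv ℝ κ y = fderiv ℝ k (y - x) := fun y => by
    have h5 : HasFDerivAt (fun y : E3 => y - x) (ContinuousLinearMap.id ℝ E3) y :=
      (hasFDerivAt_id y).sub_const x
    have h6 := (((hk.differentiable (by simp)) (y - x)).hasFDerivAt).comp y h5
    rw [ContinuousLinearMap.comp_id] at h6
    exact h6.fderiv
  have hκc : HasCompactSupport κ := by
    have := hkc.comp_homeomorph (Homeomorph.subRight x)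
    exact this
  let ψ : Fin 3 → E3 → ℝ := fun i y => φ y i - φ x i
  have hψ : ∀ i, ContDiff ℝ ∞ (ψ i) := fun i => (contDiff_coord hφ i).sub contDiff_const
  have hψd : ∀ i y v, fderiv ℝ (ψ i) y v = fderiv ℝ (fun y => φ y i) y v := by
    intro i y v
    show fderiv ℝ (fun y => φ y i - φ x i) y v = _
    rw [fderiv_sub_const]
  have hcκ : ∀ j, Continuous (fun y => fderiv ℝ κ y (EuclideanSpace.single j (1 : ℝ))) := fun j =>
    (hκ.continuous_fderiv (by simp)).clm_apply continuous_const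
  have hcψ : ∀ j, Continuous (fun y => fderiv ℝ (ψ j) y (EuclideanSpace.single j (1 : ℝ))) :=
    fun j => ((hψ j).continuous_fderiv (by simp)).clm_apply continuous_const
  have hibp : ∀ j, ∫ y, ψ j y * fderiv ℝ κ y (EuclideanSpace.single j (1 : ℝ))
      = - ∫ y, fderiv ℝ (ψ j) y (EuclideanSpace.single j (1 : ℝ)) * κ y := by
    intro j
    apply integral_mul_fderiv_eq_neg_fderiv_mul_of_integrable
    · exact ((hcψ j).mul hκ.continuous).integrable_of_hasCompactSupport (hκc.mul_left)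
    · exact ((hψ j).continuous.mul (hcκ j)).integrable_of_hasCompactSupport
        ((hκc.fderiv_apply ℝ _).mul_left)
    · exact ((hψ j).continuous.mul hκ.continuous).integrable_of_hasCompactSupport (hκc.mul_left)
    · intro y _
      exact ((hψ j).differentiable (by simp)) y
    · intro y _
      exact (hκ.differentiable (by simp)) y
  have hpt : ∀ y, fderiv ℝ k (y - x) (φ y - φ x)
      = ∑ j, ψ j y * fderiv ℝ κ y (EuclideanSpace.single j (1 : ℝ)) := by
    intro y
    rw [← hκd]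
    have hv : φ y - φ x = ∑ j, ψ j y • (EuclideanSpace.single j (1 : ℝ) : E3) := by
      ext i
      simp [ψ, Finset.sum_apply, Pi.single_apply]
    conv_lhs => rw [hv]
    simp only [map_sum, map_smul, smul_eq_mul]
  have hint1 : ∀ j ∈ Finset.univ,
      Integrable (fun y => ψ j y * fderiv ℝ κ y (EuclideanSpace.single j (1 : ℝ))) := fun j _ =>
    ((hψ j).continuous.mul (hcκ j)).integrable_of_hasCompactSupport
        ((hκc.fderiv_apply ℝ _).mul_left)
  have hint2 : ∀ j ∈ Finset.univ,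
      Integrable (fun y => fderiv ℝ (ψ j) y (EuclideanSpace.single j (1 : ℝ)) * κ y) :=
    fun j _ => ((hcψ j).mul hκ.continuous).integrable_of_hasCompactSupport (hκc.mul_left)
  simp_rw [hpt]
  rw [integral_finsetSum _ hint1]
  simp_rw [hibp]
  rw [Finset.sum_neg_distrib, ← integral_finsetSum _ hint2]
  have hz : ∀ y, ∑ j, fderiv ℝ (ψ j) y (EuclideanSpace.single j (1 : ℝ)) * κ y = 0 := by
    intro y
    rw [← Finset.sum_mul]
    have : ∑ j, fderiv ℝ (ψ j) y (EuclideanSpace.single j (1 : ℝ)) = 0 := by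
      simp_rw [hψd, fderiv_coord hφ]
      exact hdiv y
    rw [this, zero_mul]
  simp [hz]

/-- the constant of the kernel. -/
noncomputable def ck (k : E3 → ℝ) : ℝ≥0∞ := ∫⁻ h : E3, ‖fderiv ℝ k h‖ₑ * ‖h‖ₑ

/-- the bound. -/
theorem J_le (hk : ContDiff ℝ ∞ k) {b : E3 → ℝ} (hbm : StronglyMeasurable b)
    (hb2 : ∀ x, 0 ≤ b x ∧ b x ≤ 2) {φ : E3 → E3} (hφ : ContDiff ℝ ∞ φ) :
    ‖∫ y, ∫ x, b y * (b x * fderiv ℝ k (y - x) (φ y - φ x))‖ₑ
      ≤ 2 * ck k * (eLpNorm b 2 (volume : Measure E3) * eLpNorm (jac φ) 2 (volume : Measure E3)) := by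
  have hKc : Continuous (fderiv ℝ k) := hk.continuous_fderiv (by simp)
  have hKm : Measurable (fun h : E3 => ‖fderiv ℝ k h‖ₑ) := hKc.enorm.measurable
  have hbe : ∀ x, ‖b x‖ₑ ≤ 2 := by
    intro x
    rw [Real.enorm_eq_ofReal (hb2 x).1]
    exact ENNReal.ofReal_le_of_le_toReal (by simpa using (hb2 x).2)
  have h1 : ‖∫ y, ∫ x, b y * (b x * fderiv ℝ k (y - x) (φ y - φ x))‖ₑ
      ≤ ∫⁻ y : E3, ∫⁻ x : E3, ‖b y‖ₑ * (2 * ‖fderiv ℝ k (y - x)‖ₑ * ‖φ y - φ x‖ₑ) := by
    refine (enorm_integral_le_lintegral_enorm _).trans (lintegral_mono (fun y => ?_))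
    refine (enorm_integral_le_lintegral_enorm _).trans (lintegral_mono (fun x => ?_))
    rw [enorm_mul, enorm_mul]
    have h2 : ‖fderiv ℝ k (y - x) (φ y - φ x)‖ₑ ≤ ‖fderiv ℝ k (y - x)‖ₑ * ‖φ y - φ x‖ₑ :=
      ContinuousLinearMap.le_opENorm _ _
    calc ‖b y‖ₑ * (‖b x‖ₑ * ‖fderiv ℝ k (y - x) (φ y - φ x)‖ₑ)
        ≤ ‖b y‖ₑ * (2 * (‖fderiv ℝ k (y - x)‖ₑ * ‖φ y - φ x‖ₑ)) := by
          gcongr
          exact hbe x
      _ = _ := by ring
  have hFm : Measurable (Function.uncurry (fun y x : E3 => ‖b y‖ₑ *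
      (2 * ‖fderiv ℝ k (y - x)‖ₑ * ‖φ y - φ x‖ₑ))) := by
    refine (hbm.enorm.comp measurable_fst).mul (Measurable.mul ((hKm.comp
      (measurable_fst.sub measurable_snd)).const_mul _) ?_)
    exact ((hφ.continuous.comp continuous_fst).sub (hφ.continuous.comp continuous_snd)).enorm.measurable
  refine h1.trans ?_
  rw [lint_shift hFm]
  have h3 : ∀ h : E3, ∫⁻ x : E3, ‖b x‖ₑ * (2 * ‖fderiv ℝ k (x - (x + h))‖ₑ * ‖φ x - φ (x + h)‖ₑ)
      ≤ 2 * (‖fderiv ℝ k (-h)‖ₑ * ‖-h‖ₑ) *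
        (eLpNorm b 2 (volume : Measure E3) * eLpNorm (jac φ) 2 (volume : Measure E3)) := by
    intro h
    have h4 : ∀ x : E3, ‖b x‖ₑ * (2 * ‖fderiv ℝ k (x - (x + h))‖ₑ * ‖φ x - φ (x + h)‖ₑ)
        = (2 * ‖fderiv ℝ k (-h)‖ₑ) * (‖b x‖ₑ * ‖φ (x + h) - φ x‖ₑ) := by
      intro x
      rw [sub_add_cancel_left, ← enorm_neg (φ x - φ (x + h)), neg_sub]
      ring
    simp_rw [h4]
    have h5 : Continuous (fun x : E3 => φ (x + h) - φ x) :=
      (hφ.continuous.comp (by fun_prop : Continuous (fun x : E3 => x + h))).sub hφ.continuous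
    have h6 : Measurable (fun x : E3 => ‖b x‖ₑ * ‖φ (x + h) - φ x‖ₑ) :=
      hbm.enorm.mul h5.enorm.measurable
    rw [lintegral_const_mul _ h6]
    calc 2 * ‖fderiv ℝ k (-h)‖ₑ * ∫⁻ x : E3, ‖b x‖ₑ * ‖φ (x + h) - φ x‖ₑ
        ≤ 2 * ‖fderiv ℝ k (-h)‖ₑ * (eLpNorm b 2 (volume : Measure E3) *
          (‖h‖ₑ * eLpNorm (jac φ) 2 (volume : Measure E3))) := by
          gcongr
          refine (cs_lint hbm.aestronglyMeasurable h5.aestronglyMeasurable).trans ?_
          gcongr
          exact transl_le hφ h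
      _ = _ := by rw [enorm_neg]; ring
  refine (lintegral_mono h3).trans ?_
  rw [lintegral_mul_const, lintegral_const_mul]
  · have : ∫⁻ h : E3, ‖fderiv ℝ k (-h)‖ₑ * ‖-h‖ₑ = ck k := by
      rw [ck]
      exact lintegral_neg_eq_self (μ := (volume : Measure E3))
        (fun h : E3 => ‖fderiv ℝ k h‖ₑ * ‖h‖ₑ)
    rw [this]
  · exact ((hKm.comp measurable_neg).mul (continuous_neg.enorm.measurable))
  · exact (((hKm.comp measurable_neg).mul (continuous_neg.enorm.measurable))).const_mul _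

end N979MH.DPL
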