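import Pool.Agent.N64.DPL.Conv
import Pool.Agent.N64.DPL.Riem

open MeasureTheory Set Filter Topology
open scoped InnerProductSpace ENNReal ContDiff NNReal Convolution

namespace N979MH.DPL

open H772R2.NS

variable {Ω : Set E3} {k : E3 → ℝ}

theorem inner_L2S (f g : L2S Ω) : ⟪f, g⟫_ℝ = ∫ x in Ω, f x * g x := by
  rw [L2.inner_def]
  refine integral_congr_ae (Eventually.of_forall (fun x => ?_))
  simp [mul_comm]

/-- the flux as a functional of the third variable, with its bound. -/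
theorem exists_Phi (hΩ : MeasurableSet Ω) (hb : Bornology.IsBounded Ω) (hk : ContDiff ℝ ∞ k)
    (hkc : HasCompactSupport k) : ∃ (A : L2S Ω → (L2V Ω →L[ℝ] L2S Ω))
      (Φ : L2S Ω → L2V Ω → (L2S Ω →L[ℝ] ℝ)) (D : ℝ), 0 ≤ D ∧
      (∀ a v g, Φ a v g = ⟪a, A g v⟫_ℝ) ∧
      (∀ a v g, Φ a v g = Fl Ω k a v g) ∧ (∀ a v, ‖Φ a v‖ ≤ D * ‖a‖ * ‖v‖) := by
  obtain ⟨B, hB0, hB⟩ := fderiv_bdd hk hkc
  obtain ⟨m, hm0, hm⟩ := l1_le hb
  have hc : ∀ g : L2S Ω, ContDiff ℝ ∞ (cv Ω k g) := fun g => cv_contDiff hΩ hk hkc (hm g).1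
  have hD : ∀ (g : L2S Ω) y, ‖fderiv ℝ (cv Ω k g) y‖ ≤ B * (m * ‖g‖) := fun g y =>
    (cv_fderiv_le hΩ hk hkc (hm g).1 hB0 hB y).trans (by gcongr; exact (hm g).2)
  have hA := fun g : L2S Ω => opEx Ω ((hc g).continuous_fderiv (by simp))
    (D := B * (m * ‖g‖)) (by positivity) (hD g)
  choose A hA1 hA2 using hA
  have hfl : ∀ (a : L2S Ω) (v : L2V Ω) (g : L2S Ω), ⟪a, A g v⟫_ℝ = Fl Ω k a v g := by
    intro a v g
    rw [inner_L2S]
    refine integral_congr_ae ?_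
    filter_upwards [hA1 g v] with y hy
    rw [hy]
  have hadd : ∀ (v : L2V Ω) (g g' : L2S Ω), A (g + g') v = A g v + A g' v := by
    intro v g g'
    apply Lp.ext
    have e1 : cv Ω k (g + g' : L2S Ω) = fun y => cv Ω k g y + cv Ω k g' y := by
      rw [← cv_add hk.continuous hkc (hm g).1 (hm g').1]
      exact cv_congr (Lp.coeFn_add g g')
    filter_upwards [hA1 (g + g') v, hA1 g v, hA1 g' v, Lp.coeFn_add (A g v) (A g' v)]
      with y h1 h2 h3 h4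
    rw [h1, h4, Pi.add_apply, h2, h3, e1, fderiv_fun_add]
    · rfl
    · exact ((hc g).differentiable (by simp)) y
    · exact ((hc g').differentiable (by simp)) y
  have hsmul : ∀ (v : L2V Ω) (c : ℝ) (g : L2S Ω), A (c • g) v = c • A g v := by
    intro v c g
    apply Lp.ext
    have e1 : cv Ω k (c • g : L2S Ω) = fun y => c * cv Ω k g y := by
      rw [← cv_smul]
      refine cv_congr ?_
      filter_upwards [Lp.coeFn_smul c g] with x hx
      rw [hx]; rfl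
    filter_upwards [hA1 (c • g) v, hA1 g v, Lp.coeFn_smul c (A g v)]
      with y h1 h2 h4
    rw [h1, h4, Pi.smul_apply, h2, e1, fderiv_const_mul]
    · rfl
    · exact ((hc g).differentiable (by simp)) y
  let Φ : L2S Ω → L2V Ω → (L2S Ω →L[ℝ] ℝ) := fun a v =>
    LinearMap.mkContinuous
      { toFun := fun g => ⟪a, A g v⟫_ℝ
        map_add' := fun g g' => by rw [hadd, inner_add_right]
        map_smul' := fun c g => by rw [hsmul, inner_smul_right]; rfl }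
      (B * m * ‖a‖ * ‖v‖) (fun g => by
        show ‖⟪a, A g v⟫_ℝ‖ ≤ _
        calc ‖⟪a, A g v⟫_ℝ‖ ≤ ‖a‖ * ‖A g v‖ := norm_inner_le_norm _ _
          _ ≤ ‖a‖ * (B * (m * ‖g‖) * ‖v‖) := by
            gcongr
            exact (ContinuousLinearMap.le_opNorm _ _).trans (by gcongr; exact hA2 g)
          _ = _ := by ring)
  refine ⟨A, Φ, B * m, by positivity, fun a v g => rfl, hfl, fun a v => ?_⟩
  exact LinearMap.mkContinuous_norm_le _ (by positivity) _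

theorem norm_bd (hb : Bornology.IsBounded Ω) : ∃ M : ℝ, 0 ≤ M ∧ ∀ g : L2S Ω,
    (∀ᵐ x ∂(volume.restrict Ω), 1 ≤ g x ∧ g x ≤ 2) → ‖g‖ ≤ M := by
  have hfin : volume Ω < ⊤ := hb.measure_lt_top
  have : IsFiniteMeasure (volume.restrict Ω) := ⟨by simpa using hfin⟩
  refine ⟨(measureUnivNNReal (volume.restrict Ω) : ℝ) ^ ((2 : ℝ≥0∞).toReal)⁻¹ * 2, by positivity,
    fun g hg => ?_⟩
  refine Lp.norm_le_of_ae_bound (by norm_num) ?_
  filter_upwards [hg] with x hx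
  rw [Real.norm_eq_abs, abs_le]
  constructor <;> linarith [hx.1, hx.2]

theorem time_part {T : ℝ} {ρ : ℝ → L2S Ω} {u : ℝ → L2V Ω} (hΩ : MeasurableSet Ω)
    (hb : Bornology.IsBounded Ω)
    (hρ : ∀ t ∈ Icc 0 T, ∀ᵐ x ∂(volume.restrict Ω), 1 ≤ ρ t x ∧ ρ t x ≤ 2)
    (hw : ∀ g : L2S Ω, ContinuousOn (fun t => ⟪ρ t, g⟫_ℝ) (Icc 0 T))
    (hu : MemLp u 2 (volume.restrict (Ioc 0 T)))
    (htr : ∀ q : E3 → ℝ, ContDiff ℝ ∞ q → HasCompactSupport q → ∀ s t, 0 ≤ s → s ≤ t → t ≤ T →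
      (∫ x in Ω, ρ t x * q x) - (∫ x in Ω, ρ s x * q x)
        = ∫ τ in s..t, ∫ x in Ω, ρ τ x * fderiv ℝ q x (u τ x))
    (hk : ContDiff ℝ ∞ k) (hkc : HasCompactSupport k) (hke : ∀ x, k (-x) = k x) :
    ∀ t ∈ Icc 0 T, (SS Ω k (ρ t) (ρ t) - SS Ω k (ρ 0) (ρ 0)
      = ∫ τ in (0 : ℝ)..t, 2 * Fl Ω k (ρ τ) (u τ) (ρ τ)) ∧
      AEStronglyMeasurable (fun τ => 2 * Fl Ω k (ρ τ) (u τ) (ρ τ))
        (volume.restrict (uIoc 0 t)) := by
  obtain ⟨A, Φ, D, hD0, hA, hΦ, hΦb⟩ := exists_Phi hΩ hb hk hkc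
  obtain ⟨m, hm0, hm⟩ := l1_le hb
  obtain ⟨M, hM0, hM⟩ := norm_bd hb
  have hrM : ∀ t ∈ Icc 0 T, ‖ρ t‖ ≤ M := fun t ht => hM _ (hρ t ht)
  have hui : Integrable u (volume.restrict (Ioc 0 T)) := hu.integrable (by norm_num)
  have hC : IntegrableOn (fun t => D * M * ‖u t‖) (Ioc 0 T) := hui.norm.const_mul _
  have hSadd : ∀ a g g' : L2S Ω, SS Ω k a (g + g' : L2S Ω) = SS Ω k a g + SS Ω k a g' := by
    intro a g g'
    have e1 : cv Ω k (g + g' : L2S Ω) = fun y => cv Ω k g y + cv Ω k g' y := by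
      rw [← cv_add hk.continuous hkc (hm g).1 (hm g').1]
      exact cv_congr (Lp.coeFn_add g g')
    have hi : ∀ g : L2S Ω, Integrable (fun y => a y * cv Ω k g y) (volume.restrict Ω) := by
      intro g
      have h1 := cv_contDiff hΩ hk hkc (hm g).1
      obtain ⟨B, hB⟩ := h1.continuous.bounded_above_of_compact_support
        (cv_compact (g := g) hb hΩ hkc)
      exact (hm a).1.mul_bdd (c := B) h1.continuous.aestronglyMeasurable
        (Eventually.of_forall hB)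
    simp only [SS]
    rw [← integral_add (hi g) (hi g')]
    refine integral_congr_ae (Eventually.of_forall (fun x => ?_))
    simp only [e1]
    ring
  have key := N64DPL.riemann (H := L2S Ω) (T := T) (M := M) (r := ρ) hw hrM
    (Φ := fun t => Φ (ρ t) (u t)) (C := fun t => D * M * ‖u t‖) hC ?_ ?_
    (Q := fun t => SS Ω k (ρ t) (ρ t)) ?_
  · intro t ht
    have e : ∀ τ, Φ (ρ τ) (u τ) (ρ τ + ρ τ) = 2 * Fl Ω k (ρ τ) (u τ) (ρ τ) := fun τ => by
      rw [map_add, hΦ]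
      ring
    have h1 := key t ht
    simp only [e] at h1
    exact h1
  · filter_upwards [ae_restrict_mem measurableSet_Ioc] with t ht
    refine (hΦb _ _).trans ?_
    gcongr
    exact hrM t ⟨ht.1.le, ht.2⟩
  · intro g
    simp only [hA]
    refine N64DPL.meas_weak hw ?_
    exact (A g).continuous.comp_aestronglyMeasurable hu.1
  · intro s t hs hst ht
    have h1 := htr (cv Ω k (ρ t + ρ s : L2S Ω)) (cv_contDiff hΩ hk hkc (hm _).1)
      (cv_compact hb hΩ hkc) s t hs hst ht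
    have e1 : (∫ x in Ω, ρ t x * cv Ω k (ρ t + ρ s : L2S Ω) x)
        = SS Ω k (ρ t) (ρ t) + SS Ω k (ρ t) (ρ s) := hSadd _ _ _
    have e2 : (∫ x in Ω, ρ s x * cv Ω k (ρ t + ρ s : L2S Ω) x)
        = SS Ω k (ρ s) (ρ t) + SS Ω k (ρ s) (ρ s) := hSadd _ _ _
    have e3 := SS_symm (Ω := Ω) hk.continuous hkc hke (hm (ρ s)).1 (hm (ρ t)).1
    rw [e1, e2, e3] at h1
    simp only [hΦ]
    rw [show SS Ω k (ρ t) (ρ t) - SS Ω k (ρ s) (ρ s) = SS Ω k (ρ t) (ρ t) + SS Ω k (ρ t) (ρ s) -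
      (SS Ω k (ρ t) (ρ s) + SS Ω k (ρ s) (ρ s)) by ring, h1]
    rfl

end N979MH.DPL
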