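import Pool.Agent.N64.DPL.Conv

open MeasureTheory Set Filter Topology
open scoped InnerProductSpace ENNReal ContDiff NNReal Convolution

namespace N979MH.DPL

open H772R2.NS

variable {Ω : Set E3} {k : E3 → ℝ}

/-- Cauchy-Schwarz. -/
theorem cs_lint {α E F : Type*} [MeasurableSpace α] [NormedAddCommGroup E] [NormedAddCommGroup F]
    {μ : Measure α} {f : α → E} {g : α → F} (hf : AEStronglyMeasurable f μ)
    (hg : AEStronglyMeasurable g μ) :
    ∫⁻ x, ‖f x‖ₑ * ‖g x‖ₑ ∂μ ≤ eLpNorm f 2 μ * eLpNorm g 2 μ := by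
  have h := ENNReal.lintegral_mul_le_Lp_mul_Lq μ Real.HolderConjugate.two_two hf.enorm hg.enorm
  rw [eLpNorm_eq_lintegral_rpow_enorm_toReal (by norm_num) (by norm_num),
    eLpNorm_eq_lintegral_rpow_enorm_toReal (by norm_num) (by norm_num)]
  simpa using h

/-- Jensen. -/
theorem lint_sq_le {α : Type*} [MeasurableSpace α] (ν : Measure α) (hν : ν univ = 1)
    {h : α → ℝ≥0∞} (hh : AEMeasurable h ν) :
    (∫⁻ a, h a ∂ν) ^ (2 : ℝ) ≤ ∫⁻ a, h a ^ (2 : ℝ) ∂ν := by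
  have hpq : (2 : ℝ).HolderConjugate 2 := Real.HolderConjugate.two_two
  have := ENNReal.lintegral_mul_le_Lp_mul_Lq ν hpq hh (g := fun _ => 1) aemeasurable_const
  simp only [Pi.mul_apply, mul_one, ENNReal.one_rpow, lintegral_const, hν] at this
  calc (∫⁻ a, h a ∂ν) ^ (2 : ℝ) ≤ ((∫⁻ a, h a ^ (2 : ℝ) ∂ν) ^ (1 / (2 : ℝ))) ^ (2 : ℝ) :=
        ENNReal.rpow_le_rpow this (by norm_num)
    _ = _ := by
        rw [← ENNReal.rpow_mul]
        norm_num

/-- the translation estimate. -/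
theorem transl_le {φ : E3 → E3} (hφ : ContDiff ℝ ∞ φ) (h : E3) :
    eLpNorm (fun x => φ (x + h) - φ x) 2 (volume : Measure E3)
      ≤ ‖h‖ₑ * eLpNorm (jac φ) 2 (volume : Measure E3) := by
  have hjc : Continuous (jac φ) := continuous_jac hφ
  have hpt : ∀ x, ‖φ (x + h) - φ x‖ₑ ≤ ∫⁻ s in Ioc (0 : ℝ) 1, ‖h‖ₑ * ‖jac φ (x + s • h)‖ₑ := by
    intro x
    have hd : ∀ s ∈ uIcc (0 : ℝ) 1, HasDerivAt (fun s : ℝ => φ (x + s • h))
        (fderiv ℝ φ (x + s • h) h) s := by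
      intro s _
      have h1 : HasFDerivAt φ (fderiv ℝ φ (x + s • h)) (x + s • h) :=
        ((hφ.differentiable (by simp)) _).hasFDerivAt
      have h2 : HasDerivAt (fun s : ℝ => x + s • h) h s := by
        simpa using ((hasDerivAt_id s).smul_const h).const_add x
      exact h1.comp_hasDerivAt s h2
    have hc : Continuous (fun s : ℝ => fderiv ℝ φ (x + s • h) h) :=
      ((hφ.continuous_fderiv (by simp)).comp (by fun_prop)).clm_apply continuous_const
    have h1 := intervalIntegral.integral_eq_sub_of_hasDerivAt hd (hc.intervalIntegrable 0 1)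
    simp only [one_smul, zero_smul, add_zero] at h1
    rw [← h1, intervalIntegral.integral_of_le zero_le_one]
    refine (enorm_integral_le_lintegral_enorm _).trans ?_
    refine lintegral_mono (fun s => ?_)
    rw [← enorm_norm, ← enorm_norm h, ← enorm_norm (jac φ _), ← enorm_mul]
    rw [Real.enorm_eq_ofReal (norm_nonneg _), Real.enorm_eq_ofReal (by positivity)]
    refine ENNReal.ofReal_le_ofReal ?_
    calc ‖fderiv ℝ φ (x + s • h) h‖ ≤ ‖fderiv ℝ φ (x + s • h)‖ * ‖h‖ :=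
          ContinuousLinearMap.le_opNorm _ _
      _ ≤ ‖jac φ (x + s • h)‖ * ‖h‖ := by
          gcongr
          exact norm_fderiv_le_jac _
      _ = _ := mul_comm _ _
  have hν : (volume.restrict (Ioc (0 : ℝ) 1)) univ = 1 := by simp
  have hcs : ∀ x, Continuous (fun s : ℝ => jac φ (x + s • h)) := fun x =>
    hjc.comp (by fun_prop)
  have hsq : ∀ x, ‖φ (x + h) - φ x‖ₑ ^ (2 : ℝ)
      ≤ ∫⁻ s in Ioc (0 : ℝ) 1, ‖h‖ₑ ^ (2 : ℝ) * ‖jac φ (x + s • h)‖ₑ ^ (2 : ℝ) := by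
    intro x
    refine (ENNReal.rpow_le_rpow (hpt x) (by norm_num)).trans ?_
    refine (lint_sq_le _ hν ?_).trans ?_
    · exact (((hcs x).enorm.measurable).const_mul _).aemeasurable
    · refine lintegral_mono (fun s => ?_)
      rw [ENNReal.mul_rpow_of_nonneg _ _ (by norm_num)]
  rw [eLpNorm_eq_lintegral_rpow_enorm_toReal (by norm_num) (by norm_num),
    eLpNorm_eq_lintegral_rpow_enorm_toReal (by norm_num) (by norm_num)]
  simp only [ENNReal.toReal_ofNat]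
  have hmain : ∫⁻ x, ‖φ (x + h) - φ x‖ₑ ^ (2 : ℝ)
      ≤ ‖h‖ₑ ^ (2 : ℝ) * ∫⁻ x, ‖jac φ x‖ₑ ^ (2 : ℝ) := by
    calc ∫⁻ x, ‖φ (x + h) - φ x‖ₑ ^ (2 : ℝ)
        ≤ ∫⁻ x, ∫⁻ s in Ioc (0 : ℝ) 1, ‖h‖ₑ ^ (2 : ℝ) * ‖jac φ (x + s • h)‖ₑ ^ (2 : ℝ) :=
          lintegral_mono hsq
      _ = ∫⁻ s in Ioc (0 : ℝ) 1, ∫⁻ x : E3, ‖h‖ₑ ^ (2 : ℝ) * ‖jac φ (x + s • h)‖ₑ ^ (2 : ℝ) := by
          refine lintegral_lintegral_swap ?_
          refine AEMeasurable.const_mul ?_ _
          have : Continuous (fun p : E3 × ℝ => jac φ (p.1 + p.2 • h)) := hjc.comp (by fun_prop)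
          exact (this.enorm.measurable.pow_const _).aemeasurable
      _ = ∫⁻ s in Ioc (0 : ℝ) 1, ‖h‖ₑ ^ (2 : ℝ) * ∫⁻ x : E3, ‖jac φ x‖ₑ ^ (2 : ℝ) := by
          refine lintegral_congr (fun s => ?_)
          rw [lintegral_const_mul _ ?_]
          · congr 1
            exact lintegral_add_right_eq_self (fun x => ‖jac φ x‖ₑ ^ (2 : ℝ)) (s • h)
          · have : Continuous (fun p : E3 => jac φ (p + s • h)) := hjc.comp (by fun_prop)
            exact this.enorm.measurable.pow_const _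
      _ = _ := by simp
  calc (∫⁻ x, ‖φ (x + h) - φ x‖ₑ ^ (2 : ℝ)) ^ (1 / (2 : ℝ))
      ≤ (‖h‖ₑ ^ (2 : ℝ) * ∫⁻ x, ‖jac φ x‖ₑ ^ (2 : ℝ)) ^ (1 / (2 : ℝ)) :=
        ENNReal.rpow_le_rpow hmain (by norm_num)
    _ = _ := by
        rw [ENNReal.mul_rpow_of_nonneg _ _ (by norm_num), ← ENNReal.rpow_mul]
        norm_num

/-- the double integral in terms of the difference. -/
theorem lint_shift {F : E3 → E3 → ℝ≥0∞} (hF : Measurable (Function.uncurry F)) :
    ∫⁻ x : E3, ∫⁻ y : E3, F x y = ∫⁻ h : E3, ∫⁻ x : E3, F x (x + h) := by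
  calc ∫⁻ x : E3, ∫⁻ y : E3, F x y = ∫⁻ x : E3, ∫⁻ h : E3, F x (x + h) := by
        refine lintegral_congr (fun x => ?_)
        exact (lintegral_add_left_eq_self (fun y => F x y) x).symm
    _ = _ := by
        refine lintegral_lintegral_swap ?_
        exact (hF.comp (measurable_fst.prodMk (measurable_fst.add measurable_snd))).aemeasurable

/-- the truncated extension. -/
theorem exists_b (hΩ : MeasurableSet Ω) (a : L2S Ω)
    (ha : ∀ᵐ x ∂(volume.restrict Ω), 1 ≤ a x ∧ a x ≤ 2) : ∃ b : E3 → ℝ, StronglyMeasurable b ∧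
      (∀ x, 0 ≤ b x ∧ b x ≤ 2) ∧ (∀ x, x ∉ Ω → b x = 0) ∧ b =ᵐ[volume.restrict Ω] a ∧
      MemLp b 2 (volume : Measure E3) ∧ (eLpNorm b 2 (volume : Measure E3)).toReal = ‖a‖ := by
  have hs : StronglyMeasurable (a : E3 → ℝ) := Lp.stronglyMeasurable a
  let c : E3 → ℝ := fun x => max 0 (min 2 (a x))
  have hc : StronglyMeasurable c := by
    have : Continuous (fun t : ℝ => max 0 (min 2 t)) := by fun_prop
    exact this.comp_stronglyMeasurable hs
  have hca : c =ᵐ[volume.restrict Ω] a := by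
    filter_upwards [ha] with x hx
    show max 0 (min 2 (a x)) = a x
    rw [min_eq_right hx.2, max_eq_right (by linarith [hx.1])]
  have hba : Ω.indicator c =ᵐ[volume.restrict Ω] a :=
    (indicator_ae_eq_restrict hΩ).trans hca
  refine ⟨Ω.indicator c, hc.indicator hΩ, fun x => ?_, fun x hx => indicator_of_notMem hx _, hba,
    ?_, ?_⟩
  · by_cases hx : x ∈ Ω
    · rw [indicator_of_mem hx]
      exact ⟨le_max_left _ _, max_le (by norm_num) (min_le_left _ _)⟩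
    · rw [indicator_of_notMem hx]
      exact ⟨le_rfl, by norm_num⟩
  · rw [memLp_indicator_iff_restrict hΩ]
    exact (Lp.memLp a).ae_eq hca.symm
  · rw [eLpNorm_indicator_eq_eLpNorm_restrict hΩ, eLpNorm_congr_ae hca, Lp.norm_def]

end N979MH.DPL
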